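import Pool.Agent.H66.CP.Nice

/-!
# `MP_f4fb69_gt`: examples of weak `γ`-spaces
-/

set_option autoImplicit false

namespace Pool.Agent.H66.CP

open Set Filter Topology

/-- `γ`-spaces -/
def GammaSpace (Y : Type) [TopologicalSpace Y] : Prop :=
  ∃ g : ℕ → Y → Set Y, (∀ n x, IsOpen (g n x) ∧ x ∈ g n x) ∧
    ∀ O : Set Y, IsOpen O → ∀ x ∈ O, ∃ n, ∀ y ∈ g n x, g n y ⊆ O

/-- quasi-metrizable spaces: the topology is given by a distance which need not be symmetric -/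
def QuasiMetrizable (Y : Type) [TopologicalSpace Y] : Prop :=
  ∃ d : Y → Y → ℝ, (∀ x, d x x = 0) ∧ (∀ x y, 0 ≤ d x y) ∧ (∀ x y z, d x z ≤ d x y + d y z) ∧
    ∀ O : Set Y, IsOpen O ↔ ∀ x ∈ O, ∃ ε > 0, ∀ y, d x y < ε → y ∈ O

/-- spaces with a countable network -/
def HasCountableNetwork (Y : Type) [TopologicalSpace Y] : Prop :=
  ∃ N : ℕ → Set Y, ∀ O : Set Y, IsOpen O → ∀ x ∈ O, ∃ n, x ∈ N n ∧ N n ⊆ O

theorem GammaSpace.weakGamma {Y : Type} [TopologicalSpace Y] (h : GammaSpace Y) : WeakGamma Y := by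
  obtain ⟨g, hg, hO⟩ := h
  refine ⟨fun _ => univ, g, fun i x => (hg i x).1, fun i x _ => (hg i x).2, fun O hOo x hx => ?_⟩
  obtain ⟨n, hn⟩ := hO O hOo x hx
  exact ⟨n, mem_univ _, fun y _ hy z hz => hn y hy hz.1⟩

theorem QuasiMetrizable.gammaSpace {Y : Type} [TopologicalSpace Y] (h : QuasiMetrizable Y) :
    GammaSpace Y := by
  obtain ⟨d, hd0, hdp, hdt, hd⟩ := h
  refine ⟨fun n x => {y | d x y < 1 / ((n : ℝ) + 1)}, fun n x => ⟨?_, ?_⟩, fun O hO x hx => ?_⟩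
  · rw [hd]
    intro y hy
    have hy' : d x y < 1 / ((n : ℝ) + 1) := hy
    refine ⟨1 / ((n : ℝ) + 1) - d x y, by linarith, fun z hz => ?_⟩
    show d x z < 1 / ((n : ℝ) + 1)
    linarith [hdt x y z]
  · show d x x < 1 / ((n : ℝ) + 1)
    rw [hd0]
    positivity
  · obtain ⟨ε, hε, h1⟩ := (hd O).1 hO x hx
    obtain ⟨n, hn⟩ := exists_nat_one_div_lt (show 0 < ε / 2 by positivity)
    refine ⟨n, fun y hy z hz => h1 z ?_⟩
    have hy' : d x y < 1 / ((n : ℝ) + 1) := hy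
    have hz' : d y z < 1 / ((n : ℝ) + 1) := hz
    linarith [hdt x y z]

theorem HasCountableNetwork.weakGamma {Y : Type} [TopologicalSpace Y]
    (h : HasCountableNetwork Y) : WeakGamma Y := by
  obtain ⟨N, hN⟩ := h
  refine ⟨N, fun _ _ => univ, fun _ _ => isOpen_univ, fun _ _ _ => mem_univ _, fun O hO x hx => ?_⟩
  obtain ⟨n, hn, hn2⟩ := hN O hO x hx
  exact ⟨n, hn, fun y _ _ z hz => hn2 hz.2⟩

end Pool.Agent.H66.CP
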