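import Pool.Agent.H66.CP.Sel

/-!
# `MP_f4fb69_gt`: a class of spaces for which Q1 has a positive answer in ZFC

`NbP T`: outside of the small set `T` the space has a countable family of neighbourhood assignments
on subsets (`γ`-spaces and spaces with a countable network have this property with `T = ∅`).
-/

set_option autoImplicit false

namespace Pool.Agent.H66.CP

open Set Filter Topology Cardinal Pool.Agent.H60.CP

variable {X : Type} [TopologicalSpace X]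

/-- selection of `d` with `y i ∈ U d` (boxes), equal codes, and `f d` close to `f i` on a given
finite set -/
theorem sel_fin [T35Space X] (hX : CpHS X) {ι C J : Type} [Countable C] [Finite J] (c : ι → C)
    (y : ι → J → X) (U : ι → J → Set X) (hU : ∀ i j, IsOpen (U i j)) (hy : ∀ i j, y i j ∈ U i j)
    (f : ι → X → ℝ) (hf : ∀ i, Continuous (f i)) {ε : ℝ} (hε : 0 < ε) :
    ∃ D : Set ι, D.Countable ∧ ∀ i, ∀ F : Finset X, ∃ d ∈ D, c d = c i ∧ (∀ j, y i j ∈ U d j) ∧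
      ∀ x ∈ F, |f d x - f i x| < ε := by
  classical
  have key : ∀ n : ℕ, ∃ D : Set ι, D.Countable ∧ ∀ i, ∀ a : Fin n → X, ∃ d ∈ D, c d = c i ∧
      (∀ j, y i j ∈ U d j) ∧ ∀ l, |f d (a l) - f i (a l)| < ε := by
    intro n
    have hq : ∀ p : ι × (Fin n → X), ∃ q : Fin n → ℚ, ∀ l, |f p.1 (p.2 l) - q l| < ε / 3 := by
      intro p
      have : ∀ l, ∃ q : ℚ, |f p.1 (p.2 l) - q| < ε / 3 := fun l =>
        exists_rat_near _ (by positivity)
      choose q hq using this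
      exact ⟨q, hq⟩
    choose q hq using hq
    obtain ⟨D, hDc, hD⟩ := sel_box hX (J := J ⊕ Fin n) (fun p : ι × (Fin n → X) => (c p.1, q p))
      (fun p j => Sum.elim (y p.1) p.2 j)
      (fun p j => Sum.elim (fun j => U p.1 j) (fun l => {z | |f p.1 z - f p.1 (p.2 l)| < ε / 3}) j)
      (by
        rintro p (j | l)
        · exact hU p.1 j
        · exact isOpen_lt (((hf p.1).sub continuous_const).abs) continuous_const)
      (by
        rintro p (j | l)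
        · exact hy p.1 j
        · show |f p.1 (p.2 l) - f p.1 (p.2 l)| < ε / 3
          rw [sub_self, abs_zero]; positivity)
    refine ⟨Prod.fst '' D, hDc.image _, fun i a => ?_⟩
    obtain ⟨d, hd, hcd, hj⟩ := hD (i, a)
    have hc : c d.1 = c i := (Prod.ext_iff.1 hcd).1
    have hqq : q d = q (i, a) := (Prod.ext_iff.1 hcd).2
    refine ⟨d.1, ⟨d, hd, rfl⟩, hc, fun j => hj (Sum.inl j), fun l => ?_⟩
    have h1 : |f d.1 (a l) - f d.1 (d.2 l)| < ε / 3 := hj (Sum.inr l)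
    have h2 := hq d l
    have h3 := hq (i, a) l
    rw [hqq] at h2
    have h4 : |f i (a l) - q (i, a) l| < ε / 3 := h3
    rw [abs_lt] at h1 h2 h4 ⊢
    constructor <;> linarith [h1.1, h1.2, h2.1, h2.2, h4.1, h4.2]
  choose D hDc hD using key
  refine ⟨⋃ n, D n, countable_iUnion hDc, fun i F => ?_⟩
  obtain ⟨d, hd, h1, h2, h3⟩ := hD F.card i (fun l => (F.equivFin.symm l : X))
  refine ⟨d, mem_iUnion.2 ⟨_, hd⟩, h1, h2, fun x hx => ?_⟩
  have := h3 (F.equivFin ⟨x, hx⟩)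
  simpa using this

/-- pseudo-intersections as sequences -/
theorem pseudo {κ : Cardinal.{0}} (hp : PGt κ) {I : Type} (A : I → Set ℕ) (hI : #I ≤ κ)
    (h : ∀ s : Finset I, {m | ∀ i ∈ s, m ∈ A i}.Infinite) :
    ∃ b : ℕ → ℕ, StrictMono b ∧ ∀ i, ∀ᶠ n in atTop, b n ∈ A i := by
  classical
  obtain ⟨B, hB, hB2⟩ := hp I A hI h
  have hb : ∀ k, Nat.nth (· ∈ B) k ∈ B := fun k => Nat.nth_mem_of_infinite hB k
  have hbm : StrictMono (Nat.nth (· ∈ B)) := Nat.nth_strictMono hB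
  refine ⟨_, hbm, fun i => ?_⟩
  obtain ⟨N, hN⟩ := (hB2 i).bddAbove
  filter_upwards [eventually_ge_atTop (N + 1)] with k hk
  by_contra hcon
  have h2 : Nat.nth (· ∈ B) k ≤ N := hN ⟨hb k, hcon⟩
  have h3 : k ≤ Nat.nth (· ∈ B) k := hbm.id_le k
  omega

/-- `ℵ₀ < 𝔭` -/
theorem pgt_aleph0 : PGt ℵ₀ := by
  classical
  intro I A hI h
  have hc : Countable I := Cardinal.mk_le_aleph0_iff.1 hI
  rcases isEmpty_or_nonempty I with hem | hne
  · exact ⟨univ, infinite_univ, fun i => hem.elim i⟩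
  obtain ⟨e, he⟩ := exists_surjective_nat I
  have h1 : ∀ n, ∃ᶠ k in atTop, ∀ l ≤ n, k ∈ A (e l) := by
    intro n
    rw [Nat.frequently_atTop_iff_infinite]
    refine (h ((Finset.range (n + 1)).image e)).mono fun m hm l hl => ?_
    exact hm (e l) (Finset.mem_image.2 ⟨l, Finset.mem_range.2 (by omega), rfl⟩)
  obtain ⟨φ, hφ, hφ2⟩ := extraction_forall_of_frequently h1
  refine ⟨range φ, infinite_range_of_injective hφ.injective, fun i => ?_⟩
  obtain ⟨l, rfl⟩ := he i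
  refine ((finite_lt_nat l).image φ).subset ?_
  rintro _ ⟨⟨n, rfl⟩, hn⟩
  refine ⟨n, ?_, rfl⟩
  by_contra hcon
  exact hn (hφ2 n l (not_lt.1 hcon))

/-- the neighbourhood property outside of `T` -/
def NbP (T : Set X) : Prop := ∃ (A : ℕ → Set X) (G : ℕ → X → Set X), (∀ i x, IsOpen (G i x)) ∧
  (∀ i, ∀ x ∈ A i, x ∈ G i x) ∧
  ∀ O, IsOpen O → ∀ x ∈ O, x ∉ T → ∃ i, x ∈ A i ∧ ∀ y ∈ A i, y ∈ G i x → G i y ∩ A i ⊆ O

/-- countably many points are enough for the oscillation of one function -/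
theorem cover [T35Space X] (hX : CpHS X) {T : Set X} {A : ℕ → Set X} {G : ℕ → X → Set X}
    (hG : ∀ i x, IsOpen (G i x)) (hA : ∀ i, ∀ x ∈ A i, x ∈ G i x)
    (hO : ∀ O, IsOpen O → ∀ x ∈ O, x ∉ T → ∃ i, x ∈ A i ∧ ∀ y ∈ A i, y ∈ G i x → G i y ∩ A i ⊆ O)
    {x₀ : X} (hx₀ : x₀ ∉ T) (f : X → ℝ) (hf : Continuous f) {ε : ℝ} (hε : 0 < ε) :
    ∃ (p : ℕ → X) (i : ℕ → ℕ), (∀ j, p j ∈ A (i j)) ∧
      (∀ j, ∀ y ∈ A (i j), y ∈ G (i j) (p j) → ∀ z ∈ A (i j), z ∈ G (i j) y →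
        |f z - f (p j)| < ε) ∧ ∀ z, z ∉ T → ∃ j, z ∈ A (i j) ∧ z ∈ G (i j) (p j) := by
  have h1 : ∀ x : {x // x ∉ T}, ∃ i, (x : X) ∈ A i ∧ ∀ y ∈ A i, y ∈ G i x →
      G i y ∩ A i ⊆ {z | |f z - f x| < ε} := fun x =>
    hO _ (isOpen_lt ((hf.sub continuous_const).abs) continuous_const) x
      (by show |f x - f x| < ε; rw [sub_self, abs_zero]; exact hε) x.2
  choose i hi1 hi2 using h1
  obtain ⟨D, hDc, hD⟩ := sel_pt hX i (fun x : {x // x ∉ T} => (x : X))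
    (fun x => G (i x) x) (fun x => hG _ _) (fun x => hA _ _ (hi1 x))
  have hne : D.Nonempty := by
    obtain ⟨d, hd, -⟩ := hD ⟨x₀, hx₀⟩
    exact ⟨d, hd⟩
  obtain ⟨p, hp⟩ := hDc.exists_eq_range hne
  refine ⟨fun j => (p j : X), fun j => i (p j), fun j => hi1 _, fun j y hy hyG z hz hzG =>
    hi2 (p j) y hy hyG ⟨hzG, hz⟩, fun z hz => ?_⟩
  obtain ⟨d, hd, hid, hzd⟩ := hD ⟨z, hz⟩
  rw [hp] at hd
  obtain ⟨j, rfl⟩ := hd
  refine ⟨j, ?_, hzd⟩
  show z ∈ A (i (p j))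
  rw [hid]
  exact hi1 ⟨z, hz⟩

/-- the core of the theorem, for an indexed family of functions -/
theorem core [T35Space X] (hX : CpHS X) {κ : Cardinal.{0}} (hκ : ℵ₀ ≤ κ) (hp : PGt κ)
    {T : Set X} (hT : #T ≤ κ) (hP : NbP T) {x₀ : X} (hx₀ : x₀ ∉ T) {ι : Type} (f : ι → X → ℝ)
    (hf : ∀ α, Continuous (f α)) :
    ∃ D : Set ι, D.Countable ∧ ∀ α, ∃ u : ℕ → ι, (∀ n, u n ∈ D) ∧
      Tendsto (fun n => f (u n)) atTop (𝓝 (f α)) := by
  classical
  obtain ⟨A, G, hG, hA, hO⟩ := hP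
  choose p i hpA hosc hcov using fun (α : ι) (m : ℕ) =>
    cover hX hG hA hO hx₀ (f α) (hf α) (ε := 1 / ((m : ℝ) + 1)) (by positivity)
  -- the neighbourhoods
  let W : ℕ → ι → ι → Prop := fun k α β => ∀ m ≤ k, ∀ j ≤ k, i β m j = i α m j ∧
    p α m j ∈ G (i β m j) (p β m j) ∧ |f β (p α m j) - f α (p α m j)| < 1 / ((k : ℝ) + 1)
  have hW : ∀ k α β, W k α β → ∀ m ≤ k, ∀ j ≤ k, ∀ z ∈ A (i α m j), z ∈ G (i α m j) (p α m j) →
      |f β z - f α z| < 3 * (1 / ((m : ℝ) + 1)) + 1 / ((k : ℝ) + 1) := by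
    intro k α β h m hm j hj z hz hzG
    obtain ⟨h1, h2, h3⟩ := h m hm j hj
    have hpα := hpA α m j
    have a1 : |f β z - f β (p β m j)| < 1 / ((m : ℝ) + 1) :=
      hosc β m j (p α m j) (by rw [h1]; exact hpα) h2 z (by rw [h1]; exact hz) (by rw [h1]; exact hzG)
    have a2 : |f β (p α m j) - f β (p β m j)| < 1 / ((m : ℝ) + 1) :=
      hosc β m j (p β m j) (hpA β m j) (hA _ _ (hpA β m j)) (p α m j) (by rw [h1]; exact hpα) h2
    have a3 : |f α z - f α (p α m j)| < 1 / ((m : ℝ) + 1) :=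
      hosc α m j (p α m j) hpα (hA _ _ hpα) z hz hzG
    rw [abs_lt] at a1 a2 a3 h3 ⊢
    constructor <;> linarith [a1.1, a1.2, a2.1, a2.2, a3.1, a3.2, h3.1, h3.2]
  -- countable sets
  have hsel : ∀ k : ℕ, ∃ D : Set ι, D.Countable ∧ ∀ α, ∀ F : Finset X, ∃ β ∈ D, W k α β ∧
      ∀ x ∈ F, |f β x - f α x| < 1 / ((k : ℝ) + 1) := by
    intro k
    obtain ⟨D, hDc, hD⟩ := sel_fin hX (J := Fin (k + 1) × Fin (k + 1))
      (fun α (j : Fin (k + 1) × Fin (k + 1)) => i α j.1 j.2)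
      (fun α j => p α j.1 j.2) (fun α j => G (i α j.1 j.2) (p α j.1 j.2)) (fun α j => hG _ _)
      (fun α j => hA _ _ (hpA α j.1 j.2)) f hf (ε := 1 / ((k : ℝ) + 1)) (by positivity)
    refine ⟨D, hDc, fun α F => ?_⟩
    obtain ⟨β, hβ, hc, hU, hF⟩ := hD α (F ∪ Finset.univ.image
      fun j : Fin (k + 1) × Fin (k + 1) => p α j.1 j.2)
    refine ⟨β, hβ, fun m hm j hj => ⟨?_, ?_, ?_⟩, fun x hx => hF x (Finset.mem_union_left _ hx)⟩
    · exact congrFun hc (⟨m, by omega⟩, ⟨j, by omega⟩)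
    · exact hU (⟨m, by omega⟩, ⟨j, by omega⟩)
    · exact hF _ (Finset.mem_union_right _ (Finset.mem_image.2
        ⟨(⟨m, by omega⟩, ⟨j, by omega⟩), Finset.mem_univ _, rfl⟩))
  choose D hDc hD using hsel
  refine ⟨⋃ k, D k, countable_iUnion hDc, fun α => ?_⟩
  have hne : ∀ k, (D k).Nonempty := fun k => by
    obtain ⟨β, hβ, -⟩ := hD k α ∅
    exact ⟨β, hβ⟩
  choose d hd using fun k => (hDc k).exists_eq_range (hne k)
  -- the filter on `ℕ`
  let v : ℕ → ι := fun n => d n.unpair.1 n.unpair.2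
  let E : (T × ℕ) ⊕ ℕ → Set ℕ := Sum.elim
    (fun q => {n | |f (v n) q.1 - f α q.1| < 1 / ((q.2 : ℝ) + 1)})
    (fun k => {n | k ≤ n.unpair.1 ∧ W n.unpair.1 α (v n)})
  have hcard : #((T × ℕ) ⊕ ℕ) ≤ κ := by
    rw [Cardinal.mk_sum, Cardinal.mk_prod]
    simp only [Cardinal.lift_id, Cardinal.mk_nat]
    refine Cardinal.add_le_of_le hκ ?_ hκ
    calc #T * ℵ₀ ≤ κ * κ := mul_le_mul' hT hκ
      _ = κ := Cardinal.mul_eq_self hκ
  have hinf : ∀ s : Finset ((T × ℕ) ⊕ ℕ), {m | ∀ q ∈ s, m ∈ E q}.Infinite := by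
    intro s
    -- a bound for the numbers in `s`
    let N : ℕ := s.sup (Sum.elim (fun q => q.2) id)
    let F : Finset X := s.biUnion (Sum.elim (fun q => {(q.1 : X)}) fun _ => ∅)
    rw [← Nat.frequently_atTop_iff_infinite, Filter.frequently_atTop]
    intro a
    obtain ⟨β, hβ, hWβ, hFβ⟩ := hD (max N a) α F
    rw [hd (max N a)] at hβ
    obtain ⟨l, rfl⟩ := hβ
    refine ⟨Nat.pair (max N a) l, (le_max_right _ _).trans (Nat.left_le_pair _ _), ?_⟩
    have hv : v (Nat.pair (max N a) l) = d (max N a) l := by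
      show d _ _ = _
      rw [Nat.unpair_pair]
    rintro (q | k) hq
    · show |f (v (Nat.pair (max N a) l)) q.1 - f α q.1| < 1 / ((q.2 : ℝ) + 1)
      rw [hv]
      have h1 : (q.1 : X) ∈ F := Finset.mem_biUnion.2 ⟨_, hq, by simp⟩
      have h2 : q.2 ≤ N := Finset.le_sup (f := Sum.elim (fun q : T × ℕ => q.2) id) hq
      refine (hFβ _ h1).trans_le ?_
      have h3 : (q.2 : ℝ) ≤ ((max N a : ℕ) : ℝ) := by exact_mod_cast h2.trans (le_max_left _ _)
      gcongr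
    · have h2 : k ≤ N := Finset.le_sup (f := Sum.elim (fun q : T × ℕ => q.2) id) hq
      refine ⟨?_, ?_⟩
      · rw [Nat.unpair_pair]
        exact h2.trans (le_max_left _ _)
      · rw [hv, Nat.unpair_pair]
        exact hWβ
  obtain ⟨b, hb, hbE⟩ := pseudo hp E hcard hinf
  refine ⟨fun n => v (b n), fun n => mem_iUnion.2 ⟨(b n).unpair.1, ?_⟩, ?_⟩
  · rw [hd]
    exact mem_range_self _
  rw [tendsto_pi_nhds]
  intro z
  rw [Metric.tendsto_atTop']
  intro ε hε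
  have hev : ∀ᶠ n in atTop, |f (v (b n)) z - f α z| < ε := by
    by_cases hz : z ∈ T
    · obtain ⟨m, hm⟩ := exists_nat_one_div_lt hε
      filter_upwards [hbE (Sum.inl (⟨z, hz⟩, m))] with n hn
      exact lt_trans hn hm
    · obtain ⟨m, hm⟩ := exists_nat_one_div_lt (show 0 < ε / 4 by positivity)
      obtain ⟨j, hj1, hj2⟩ := hcov α m z hz
      filter_upwards [hbE (Sum.inr (max m j))] with n hn
      obtain ⟨hn1, hn2⟩ := hn
      have h1 := hW _ α _ hn2 m ((le_max_left _ _).trans hn1) j ((le_max_right _ _).trans hn1)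
        z hj1 hj2
      have h2 : 1 / (((b n).unpair.1 : ℝ) + 1) ≤ 1 / ((m : ℝ) + 1) := by
        have h3 : (m : ℝ) ≤ ((b n).unpair.1 : ℝ) := by
          exact_mod_cast (le_max_left _ _).trans hn1
        gcongr
      linarith
  obtain ⟨N, hN⟩ := eventually_atTop.1 hev
  exact ⟨N, fun n hn => by rw [Real.dist_eq]; exact hN n hn.le⟩

/-- spaces with the neighbourhood property outside of a small set -/
theorem main [T35Space X] (hX : CpHS X) {κ : Cardinal.{0}} (hκ : ℵ₀ ≤ κ) (hp : PGt κ)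
    {T : Set X} (hT : #T ≤ κ) (hP : NbP T) : CpHSS X := by
  by_cases hall : ∀ x, x ∈ T
  · have h1 : #X ≤ κ := by
      have : T = Set.univ := eq_univ_of_forall hall
      rw [this, Cardinal.mk_univ] at hT
      exact hT
    exact pos hκ hp X h1 hX
  · push Not at hall
    obtain ⟨x₀, hx₀⟩ := hall
    intro S hS
    obtain ⟨D, hDc, hD⟩ := core hX hκ hp hT hP hx₀ (fun α : S => (α : X → ℝ)) (fun α => hS α α.2)
    refine ⟨Subtype.val '' D, by rintro _ ⟨α, -, rfl⟩; exact α.2, hDc.image _, fun f hf => ?_⟩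
    obtain ⟨u, hu, hlim⟩ := hD ⟨f, hf⟩
    exact ⟨fun n => (u n : X → ℝ), fun n => ⟨u n, hu n, rfl⟩, hlim⟩

end Pool.Agent.H66.CP
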