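import Pool.Agent.H66.CP.Main

/-!
# `MP_f4fb69_gt`: the class of spaces

`Nice`: the least class of spaces which contains the weak `γ`-spaces and the suborderable spaces
and is closed under subspaces, countable products and countable unions.
-/

set_option autoImplicit false

namespace Pool.Agent.H66.CP

open Set Filter Topology Cardinal Pool.Agent.H60.CP

/-- weak `γ`-spaces: `γ`-spaces are the case `A i = univ`, spaces with a countable network the case
`G i x = univ` -/
def WeakGamma (Y : Type) [TopologicalSpace Y] : Prop :=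
  ∃ (A : ℕ → Set Y) (G : ℕ → Y → Set Y), (∀ i x, IsOpen (G i x)) ∧ (∀ i, ∀ x ∈ A i, x ∈ G i x) ∧
    ∀ O : Set Y, IsOpen O → ∀ x ∈ O, ∃ i, x ∈ A i ∧ ∀ y ∈ A i, y ∈ G i x → G i y ∩ A i ⊆ O

/-- suborderable spaces (generalized ordered spaces) -/
def Suborderable (Y : Type) [TopologicalSpace Y] : Prop :=
  ∃ _ : LinearOrder Y, (∀ a : Y, IsOpen (Iio a) ∧ IsOpen (Ioi a)) ∧
    ∀ O : Set Y, IsOpen O → ∀ x ∈ O, ∃ C : Set Y, IsOpen C ∧ C.OrdConnected ∧ x ∈ C ∧ C ⊆ O

/-- the least class of spaces which contains the weak `γ`-spaces and the suborderable spaces and is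
closed under subspaces, countable products and countable unions -/
inductive Nice : (Y : Type) → TopologicalSpace Y → Prop
  | weakGamma (Y : Type) (t : TopologicalSpace Y) (h : WeakGamma Y) : Nice Y t
  | suborderable (Y : Type) (t : TopologicalSpace Y) (h : Suborderable Y) : Nice Y t
  | subspace (Y Z : Type) (t : TopologicalSpace Y) (u : TopologicalSpace Z) (f : Y → Z)
      (hf : IsEmbedding f) (h : Nice Z u) : Nice Y t
  | product (Z : ℕ → Type) (t : ∀ n, TopologicalSpace (Z n)) (h : ∀ n, Nice (Z n) (t n)) :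
      Nice (∀ n, Z n) Pi.topologicalSpace
  | union (Y : Type) (t : TopologicalSpace Y) (Z : ℕ → Set Y) (hZ : ⋃ n, Z n = Set.univ)
      (h : ∀ n, Nice (Z n) instTopologicalSpaceSubtype) : Nice Y t

/-- the square is hereditarily Lindelöf -/
def HL2 (Y : Type) [TopologicalSpace Y] : Prop :=
  ∀ (ι : Type) (a b : ι → Y) (U V : ι → Set Y),
    (∀ i, IsOpen (U i) ∧ IsOpen (V i) ∧ a i ∈ U i ∧ b i ∈ V i) →
    ∃ D : Set ι, D.Countable ∧ ∀ i, ∃ d ∈ D, a i ∈ U d ∧ b i ∈ V d

theorem HL2.subtype {Y : Type} [TopologicalSpace Y] (h : HL2 Y) (Z : Set Y) : HL2 Z := by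
  intro ι a b U V hUV
  choose hU hV ha hb using hUV
  choose U' hU' hUU' using fun i => isOpen_induced_iff.1 (hU i)
  choose V' hV' hVV' using fun i => isOpen_induced_iff.1 (hV i)
  obtain ⟨D, hDc, hD⟩ := h ι (fun i => (a i : Y)) (fun i => (b i : Y)) U' V' (fun i =>
    ⟨hU' i, hV' i, by have := ha i; rw [← hUU' i] at this; exact this,
      by have := hb i; rw [← hVV' i] at this; exact this⟩)
  refine ⟨D, hDc, fun i => ?_⟩
  obtain ⟨d, hd, h1, h2⟩ := hD i
  exact ⟨d, hd, by rw [← hUU' d]; exact h1, by rw [← hVV' d]; exact h2⟩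

theorem hl2_of_cpHS {X : Type} [TopologicalSpace X] [T35Space X] (hX : CpHS X) : HL2 X := by
  intro ι a b U V hUV
  obtain ⟨D, hDc, hD⟩ := sel_box hX (J := Bool) (fun _ : ι => ())
    (fun i j => if j then a i else b i) (fun i j => if j then U i else V i)
    (by
      rintro i (_ | _)
      · simpa using (hUV i).2.1
      · simpa using (hUV i).1)
    (by
      rintro i (_ | _)
      · simpa using (hUV i).2.2.2
      · simpa using (hUV i).2.2.1)
  refine ⟨D, hDc, fun i => ?_⟩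
  obtain ⟨d, hd, -, h⟩ := hD i
  exact ⟨d, hd, by simpa using h true, by simpa using h false⟩

/-- countable index sets -/
theorem weakGamma_of {Y : Type} [TopologicalSpace Y] {I : Type} [Countable I] (A : I → Set Y)
    (G : I → Y → Set Y) (hG : ∀ i x, IsOpen (G i x)) (hA : ∀ i, ∀ x ∈ A i, x ∈ G i x)
    (hO : ∀ O, IsOpen O → ∀ x ∈ O, ∃ i, x ∈ A i ∧ ∀ y ∈ A i, y ∈ G i x → G i y ∩ A i ⊆ O) :
    WeakGamma Y := by
  rcases isEmpty_or_nonempty I with hem | hne
  · refine ⟨fun _ => ∅, fun _ _ => univ, fun _ _ => isOpen_univ, fun _ _ _ => mem_univ _,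
      fun O hOo x hx => ?_⟩
    obtain ⟨i, -⟩ := hO O hOo x hx
    exact hem.elim i
  obtain ⟨e, he⟩ := exists_surjective_nat I
  refine ⟨fun n => A (e n), fun n => G (e n), fun n x => hG _ _, fun n x hx => hA _ _ hx,
    fun O hOo x hx => ?_⟩
  obtain ⟨i, hi⟩ := hO O hOo x hx
  obtain ⟨n, rfl⟩ := he i
  exact ⟨n, hi⟩

theorem WeakGamma.induced {Y Z : Type} [u : TopologicalSpace Z] (h : WeakGamma Z) (f : Y → Z) :
    @WeakGamma Y (TopologicalSpace.induced f u) := by
  letI : TopologicalSpace Y := TopologicalSpace.induced f u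
  have hf : Continuous f := continuous_induced_dom
  obtain ⟨A, G, hG, hA, hO⟩ := h
  refine ⟨fun i => f ⁻¹' A i, fun i x => f ⁻¹' G i (f x), fun i x => (hG _ _).preimage hf,
    fun i x hx => hA _ _ hx, fun O hOo x hx => ?_⟩
  obtain ⟨O', hO', rfl⟩ := isOpen_induced_iff.1 hOo
  obtain ⟨i, hi, h1⟩ := hO O' hO' (f x) hx
  exact ⟨i, hi, fun y hy hyG z hz => h1 (f y) hy hyG hz⟩

theorem weakGamma_iInf {Y : Type} (t : ℕ → TopologicalSpace Y)
    (h : ∀ n, @WeakGamma Y (t n)) : @WeakGamma Y (⨅ n, t n) := by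
  letI : TopologicalSpace Y := ⨅ n, t n
  choose A G hG hA hO using h
  have hle : ∀ n (O : Set Y), IsOpen[t n] O → IsOpen O := fun n O hO =>
    (iInf_le t n : (⨅ n, t n) ≤ t n) O hO
  refine weakGamma_of (I := Finset (ℕ × ℕ)) (fun F => ⋂ p ∈ F, A p.1 p.2)
    (fun F x => ⋂ p ∈ F, G p.1 p.2 x) (fun F x => isOpen_biInter_finset fun p _ =>
      hle p.1 _ (hG _ _ _)) (fun F x hx => ?_) (fun O hOo x hx => ?_)
  · simp only [mem_iInter] at hx ⊢
    exact fun p hp => hA _ _ _ (hx p hp)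
  · have h1 : O ∈ @nhds Y (⨅ n, t n) x := IsOpen.mem_nhds hOo hx
    rw [nhds_iInf, Filter.mem_iInf'] at h1
    obtain ⟨I, hI, V, hV, -, hOV, -⟩ := h1
    have h2 : ∀ n, ∃ i, x ∈ A n i ∧ ∀ y ∈ A n i, y ∈ G n i x → G n i y ∩ A n i ⊆ V n := by
      intro n
      obtain ⟨W, hWV, hW, hxW⟩ := (@mem_nhds_iff Y (t n) x (V n)).1 (hV n)
      obtain ⟨i, hi, h3⟩ := hO n W hW x hxW
      exact ⟨i, hi, fun y hy hyG => (h3 y hy hyG).trans hWV⟩
    choose i hi h3 using h2
    classical
    refine ⟨hI.toFinset.image fun n => (n, i n), ?_, fun y hy hyG z hz => ?_⟩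
    · simp only [mem_iInter, Finset.mem_image]
      rintro _ ⟨n, -, rfl⟩
      exact hi n
    · rw [hOV]
      simp only [mem_iInter, Finset.mem_image, mem_inter_iff] at hy hyG hz ⊢
      intro n hn
      have hm : ∃ a ∈ hI.toFinset, (a, i a) = (n, i n) := ⟨n, by simpa using hn, rfl⟩
      exact h3 n y (hy _ hm) (hyG _ hm) ⟨hz.1 _ hm, hz.2 _ hm⟩

theorem weakGamma_union {Y : Type} [TopologicalSpace Y] (Z : ℕ → Set Y) (hZ : ⋃ n, Z n = Set.univ)
    (h : ∀ n, WeakGamma (Z n)) : WeakGamma Y := by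
  choose A G hG hA hO using h
  choose G' hG' hGG' using fun n i x => isOpen_induced_iff.1 (hG n i x)
  refine weakGamma_of (I := ℕ × ℕ) (fun p => Subtype.val '' A p.1 p.2)
    (fun p x => {y | ∀ h : x ∈ Z p.1, y ∈ G' p.1 p.2 ⟨x, h⟩}) (fun p x => ?_) ?_ ?_
  · by_cases h : x ∈ Z p.1
    · have : {y | ∀ h : x ∈ Z p.1, y ∈ G' p.1 p.2 ⟨x, h⟩} = G' p.1 p.2 ⟨x, h⟩ := by
        ext y; exact ⟨fun h1 => h1 h, fun h1 _ => h1⟩
      rw [this]
      exact hG' _ _ _
    · have : {y | ∀ h : x ∈ Z p.1, y ∈ G' p.1 p.2 ⟨x, h⟩} = Set.univ := by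
        ext y; exact ⟨fun _ => mem_univ _, fun _ h1 => absurd h1 h⟩
      rw [this]
      exact isOpen_univ
  · rintro ⟨n, i⟩ _ ⟨x, hx, rfl⟩ h
    have h1 := hA n i x hx
    rw [← hGG' n i x] at h1
    exact h1
  · intro O hOo x hx
    have h1 : x ∈ ⋃ n, Z n := by rw [hZ]; exact mem_univ x
    obtain ⟨n, hn⟩ := mem_iUnion.1 h1
    obtain ⟨i, hi, h2⟩ := hO n (Subtype.val ⁻¹' O) (hOo.preimage continuous_subtype_val) ⟨x, hn⟩ hx
    refine ⟨(n, i), ⟨⟨x, hn⟩, hi, rfl⟩, ?_⟩
    rintro _ ⟨y, hy, rfl⟩ hyG _ ⟨hzG, ⟨z, hz, rfl⟩⟩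
    have h3 : y ∈ G n i ⟨x, hn⟩ := by
      rw [← hGG' n i ⟨x, hn⟩]
      exact hyG hn
    have h4 : z ∈ G n i y := by
      rw [← hGG' n i y]
      exact hzG y.2
    exact h2 y hy h3 ⟨h4, hz⟩

/-- suborderable spaces -/
theorem weakGamma_sub {Y Z : Type} [TopologicalSpace Y] (hY : HL2 Y) [u : TopologicalSpace Z]
    (hZ : Suborderable Z) (f : Y → Z) (hf : Continuous f) :
    @WeakGamma Y (TopologicalSpace.induced f u) := by
  obtain ⟨_, hord, hconv⟩ := hZ
  -- a countable separating family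
  have hsep : ∀ p : {p : Y × Y // f p.1 < f p.2}, ∃ U V : Set Z, IsOpen U ∧ IsOpen V ∧
      U.OrdConnected ∧ V.OrdConnected ∧ f p.1.1 ∈ U ∧ f p.1.2 ∈ V ∧ Disjoint U V := by
    rintro ⟨p, hp⟩
    by_cases h : ∃ c, f p.1 < c ∧ c < f p.2
    · obtain ⟨c, h1, h2⟩ := h
      refine ⟨Iio c, Ioi c, (hord c).1, (hord c).2, ordConnected_Iio, ordConnected_Ioi, h1, h2, ?_⟩
      rw [Set.disjoint_left]
      intro z h3 h4
      exact lt_asymm h3 h4
    · refine ⟨Iio (f p.2), Ioi (f p.1), (hord _).1, (hord _).2, ordConnected_Iio, ordConnected_Ioi,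
        hp, hp, ?_⟩
      rw [Set.disjoint_left]
      intro z h3 h4
      exact h ⟨z, h4, h3⟩
  choose U V hU hV hUc hVc hxU hyV hUV using hsep
  obtain ⟨D, hDc, hD⟩ := hY {p : Y × Y // f p.1 < f p.2} (fun p => p.1.1) (fun p => p.1.2)
    (fun p => f ⁻¹' U p) (fun p => f ⁻¹' V p)
    (fun p => ⟨(hU p).preimage hf, (hV p).preimage hf, hxU p, hyV p⟩)
  have hDct : Countable D := hDc.to_subtype
  letI t : TopologicalSpace Y := TopologicalSpace.induced f u
  have hf' : Continuous f := continuous_induced_dom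
  -- the family
  let S : Option (D × Bool) → Set Z := fun o => match o with
    | none => univ
    | some (d, true) => U d
    | some (d, false) => V d
  have hSo : ∀ o, IsOpen (S o) := by
    rintro (_ | ⟨d, _ | _⟩)
    · exact isOpen_univ
    · exact hV _
    · exact hU _
  -- the sides
  let L : Y → Prop := fun x => IsOpen {y | f x ≤ f y}
  let R : Y → Prop := fun x => IsOpen {y | f y ≤ f x}
  let G : (Option (D × Bool) × Option (D × Bool)) × (Prop × Prop) → Y → Set Y := fun q x =>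
    {y | f y ∈ S q.1.1 ∧ f y ∈ S q.1.2 ∧ (q.2.1 ∧ L x → f x ≤ f y) ∧ (q.2.2 ∧ R x → f y ≤ f x)}
  have hside : ∀ (P : Prop) (x : Y) (s : Y → Set Y), (P → IsOpen (s x)) →
      IsOpen {y | P → y ∈ s x} := by
    intro P x s h
    by_cases hP : P
    · have : {y | P → y ∈ s x} = s x := by ext y; exact ⟨fun h1 => h1 hP, fun h1 _ => h1⟩
      rw [this]; exact h hP
    · have : {y | P → y ∈ s x} = Set.univ := by ext y; exact ⟨fun _ => mem_univ _, fun _ h1 => absurd h1 hP⟩
      rw [this]; exact isOpen_univ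
  refine weakGamma_of (I := (Option (D × Bool) × Option (D × Bool)) × (Prop × Prop))
    (fun q => {x | f x ∈ S q.1.1 ∧ f x ∈ S q.1.2 ∧ (q.2.1 ↔ L x) ∧ (q.2.2 ↔ R x)}) G
    (fun q x => ?_) (fun q x hx => ⟨hx.1, hx.2.1, fun _ => le_rfl, fun _ => le_rfl⟩) ?_
  · refine ((hSo q.1.1).preimage hf').inter (((hSo q.1.2).preimage hf').inter (IsOpen.inter ?_ ?_))
    · exact hside _ x (fun x => {y | f x ≤ f y}) (fun h => h.2)
    · exact hside _ x (fun x => {y | f y ≤ f x}) (fun h => h.2)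
  · intro O hO x hx
    obtain ⟨O', hO', rfl⟩ := isOpen_induced_iff.1 hO
    obtain ⟨C, hC, hCc, hxC, hCO⟩ := hconv O' hO' (f x) hx
    -- the left side
    have hl : ∃ o, f x ∈ S o ∧ ∀ z, f z ∈ S o → f z ≤ f x → (L x → f x ≤ f z) → f z ∈ C := by
      by_cases hL : L x
      · refine ⟨none, mem_univ _, fun z _ h1 h2 => ?_⟩
        rw [le_antisymm h1 (h2 hL)]
        exact hxC
      · have h1 : ∃ y, f y ∈ C ∧ f y < f x := by
          by_contra hcon
          push Not at hcon
          apply hL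
          have : {y | f x ≤ f y} = f ⁻¹' C ∪ f ⁻¹' Ioi (f x) := by
            ext y
            constructor
            · intro hy
              rcases eq_or_lt_of_le (show f x ≤ f y from hy) with h2 | h2
              · exact Or.inl (show f y ∈ C by rw [← h2]; exact hxC)
              · exact Or.inr h2
            · rintro (hy | hy)
              · exact hcon y hy
              · exact le_of_lt hy
          show IsOpen {y | f x ≤ f y}
          rw [this]
          exact (hC.preimage hf').union (((hord _).2).preimage hf')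
        obtain ⟨y, hyC, hyx⟩ := h1
        obtain ⟨d, hd, h2, h3⟩ := hD ⟨(y, x), hyx⟩
        have h3' : f x ∈ V d := h3
        have h2' : f y ∈ U d := h2
        refine ⟨some (⟨d, hd⟩, false), h3', fun z hz hzx _ => ?_⟩
        have hz' : f z ∈ V d := hz
        have h4 : f y < f z := by
          by_contra hcon
          rw [not_lt] at hcon
          have h5 : f y ∈ V d := (hVc d).out hz' h3' ⟨hcon, hyx.le⟩
          exact Set.disjoint_left.1 (hUV d) h2' h5
        exact hCc.out hyC hxC ⟨h4.le, hzx⟩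
    have hr : ∃ o, f x ∈ S o ∧ ∀ z, f z ∈ S o → f x ≤ f z → (R x → f z ≤ f x) → f z ∈ C := by
      by_cases hR : R x
      · refine ⟨none, mem_univ _, fun z _ h1 h2 => ?_⟩
        rw [le_antisymm (h2 hR) h1]
        exact hxC
      · have h1 : ∃ y, f y ∈ C ∧ f x < f y := by
          by_contra hcon
          push Not at hcon
          apply hR
          have : {y | f y ≤ f x} = f ⁻¹' C ∪ f ⁻¹' Iio (f x) := by
            ext y
            constructor
            · intro hy
              rcases eq_or_lt_of_le (show f y ≤ f x from hy) with h2 | h2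
              · exact Or.inl (show f y ∈ C by rw [h2]; exact hxC)
              · exact Or.inr h2
            · rintro (hy | hy)
              · exact hcon y hy
              · exact le_of_lt hy
          show IsOpen {y | f y ≤ f x}
          rw [this]
          exact (hC.preimage hf').union (((hord _).1).preimage hf')
        obtain ⟨y, hyC, hyx⟩ := h1
        obtain ⟨d, hd, h2, h3⟩ := hD ⟨(x, y), hyx⟩
        have h3' : f y ∈ V d := h3
        have h2' : f x ∈ U d := h2
        refine ⟨some (⟨d, hd⟩, true), h2', fun z hz hzx _ => ?_⟩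
        have hz' : f z ∈ U d := hz
        have h4 : f z < f y := by
          by_contra hcon
          rw [not_lt] at hcon
          have h5 : f y ∈ U d := (hUc d).out h2' hz' ⟨hyx.le, hcon⟩
          exact Set.disjoint_left.1 (hUV d) h5 h3'
        exact hCc.out hxC hyC ⟨hzx, h4.le⟩
    obtain ⟨o, ho1, ho2⟩ := hl
    obtain ⟨o', ho1', ho2'⟩ := hr
    refine ⟨((o, o'), (L x, R x)), ⟨ho1, ho1', Iff.rfl, Iff.rfl⟩, ?_⟩
    rintro y ⟨-, -, hyL, hyR⟩ ⟨-, -, hxyL, hxyR⟩ z ⟨⟨hz1, hz2, hz3, hz4⟩, -⟩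
    refine hCO ?_
    rcases le_total (f z) (f x) with h | h
    · exact ho2 z hz1 h fun hLx => (hxyL ⟨hLx, hLx⟩).trans (hz3 ⟨hLx, hyL.1 hLx⟩)
    · exact ho2' z hz2 h fun hRx => (hz4 ⟨hRx, hyR.1 hRx⟩).trans (hxyR ⟨hRx, hRx⟩)

/-- the spaces of the class -/
theorem Nice.weakGamma_induced {Z : Type} {u : TopologicalSpace Z} (h : Nice Z u) :
    ∀ (Y : Type) [TopologicalSpace Y], HL2 Y → ∀ f : Y → Z, Continuous f →
      @WeakGamma Y (TopologicalSpace.induced f u) := by
  induction h with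
  | weakGamma Z u h => exact fun Y _ _ f _ => h.induced f
  | suborderable Z u h => exact fun Y _ hY f hf => weakGamma_sub hY h f hf
  | subspace Z W u v g hg _ ih =>
    intro Y _ hY f hf
    have h1 := ih Y hY (g ∘ f) (hg.continuous.comp hf)
    rw [← induced_compose, ← hg.eq_induced] at h1
    exact h1
  | product Z u _ ih =>
    intro Y _ hY f hf
    have h1 : TopologicalSpace.induced f (Pi.topologicalSpace) =
        ⨅ n, TopologicalSpace.induced (fun y => f y n) (u n) := by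
      unfold Pi.topologicalSpace
      rw [induced_iInf]
      simp only [induced_compose]
      rfl
    rw [h1]
    exact weakGamma_iInf _ fun n => ih n Y hY (fun y => f y n) ((continuous_apply n).comp hf)
  | union W t Z hZ _ ih =>
    intro Y _ hY f hf
    have h1 : ∀ n, @WeakGamma (f ⁻¹' Z n)
        (TopologicalSpace.induced (fun y : f ⁻¹' Z n => (⟨f y.1, y.2⟩ : Z n))
          instTopologicalSpaceSubtype) := fun n =>
      ih n (f ⁻¹' Z n) (hY.subtype (f ⁻¹' Z n)) (fun y => ⟨f y.1, y.2⟩)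
        (Continuous.subtype_mk (hf.comp continuous_subtype_val) _)
    refine @weakGamma_union Y (TopologicalSpace.induced f t) (fun n => f ⁻¹' Z n) ?_ fun n => ?_
    · rw [← preimage_iUnion, hZ, preimage_univ]
    · have h2 : TopologicalSpace.induced (fun y : f ⁻¹' Z n => (⟨f y.1, y.2⟩ : Z n))
          instTopologicalSpaceSubtype = @instTopologicalSpaceSubtype Y (· ∈ f ⁻¹' Z n)
            (TopologicalSpace.induced f t) := by
        show TopologicalSpace.induced _ (TopologicalSpace.induced _ _) =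
          TopologicalSpace.induced _ (TopologicalSpace.induced _ _)
        rw [induced_compose, induced_compose]
        rfl
      have h3 := h1 n
      rw [h2] at h3
      exact h3

/-- spaces which are nice outside of a small set -/
theorem main_nice {X : Type} [TopologicalSpace X] [T35Space X] {κ : Cardinal.{0}} (hκ : ℵ₀ ≤ κ)
    (hp : PGt κ) {T : Set X} (hT : #T ≤ κ) (hN : Nice (Tᶜ : Set X) inferInstance) (hX : CpHS X) :
    CpHSS X := by
  have h1 : WeakGamma (Tᶜ : Set X) := by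
    have := hN.weakGamma_induced (Tᶜ : Set X) ((hl2_of_cpHS hX).subtype _) id continuous_id
    rwa [induced_id] at this
  refine main hX hκ hp hT ?_
  obtain ⟨A, G, hG, hA, hO⟩ := h1
  choose G' hG' hGG' using fun i x => isOpen_induced_iff.1 (hG i x)
  refine ⟨fun i => Subtype.val '' A i, fun i x => {y | ∀ h : x ∈ Tᶜ, y ∈ G' i ⟨x, h⟩},
    fun i x => ?_, ?_, ?_⟩
  · by_cases h : x ∈ Tᶜ
    · have : {y | ∀ h : x ∈ Tᶜ, y ∈ G' i ⟨x, h⟩} = G' i ⟨x, h⟩ := by
        ext y; exact ⟨fun h1 => h1 h, fun h1 _ => h1⟩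
      show IsOpen {y | ∀ h : x ∈ Tᶜ, y ∈ G' i ⟨x, h⟩}
      rw [this]
      exact hG' _ _
    · have : {y | ∀ h : x ∈ Tᶜ, y ∈ G' i ⟨x, h⟩} = Set.univ := by
        ext y; exact ⟨fun _ => mem_univ _, fun _ h1 => absurd h1 h⟩
      show IsOpen {y | ∀ h : x ∈ Tᶜ, y ∈ G' i ⟨x, h⟩}
      rw [this]
      exact isOpen_univ
  · rintro i _ ⟨x, hx, rfl⟩ h
    have h1 := hA i x hx
    rw [← hGG' i x] at h1
    exact h1
  · intro O hOo x hx hxT
    obtain ⟨i, hi, h2⟩ := hO (Subtype.val ⁻¹' O) (hOo.preimage continuous_subtype_val) ⟨x, hxT⟩ hx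
    refine ⟨i, ⟨⟨x, hxT⟩, hi, rfl⟩, ?_⟩
    rintro _ ⟨y, hy, rfl⟩ hyG _ ⟨hzG, ⟨z, hz, rfl⟩⟩
    have h3 : y ∈ G i ⟨x, hxT⟩ := by
      rw [← hGG' i ⟨x, hxT⟩]
      exact hyG hxT
    have h4 : z ∈ G i y := by
      rw [← hGG' i y]
      exact hzG y.2
    exact h2 y hy h3 ⟨h4, hz⟩

end Pool.Agent.H66.CP
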