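import Pool.Agent.H60.CP.Pos

/-!
# `MP_f4fb69_gt`: selection lemmas for spaces `X` with `C_p(X)` hereditarily separable

If `CpHS X` holds, then all finite powers of `X` are hereditarily Lindelöf for
neighbourhood assignments by open boxes, with codes from a countable set (`sel_box`).
-/

set_option autoImplicit false

namespace Pool.Agent.H66.CP

open Set Filter Topology Pool.Agent.H60.CP

variable {X : Type} [TopologicalSpace X]

/-- bump functions -/
theorem exists_bump [CompletelyRegularSpace X] {U : Set X} (hU : IsOpen U) {x : X} (hx : x ∈ U) :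
    ∃ f : X → ℝ, Continuous f ∧ f x = 1 ∧ (∀ z, z ∉ U → f z = 0) ∧ ∀ z, 0 ≤ f z := by
  obtain ⟨g, hg, hgx, hgK⟩ := CompletelyRegularSpace.completely_regular x Uᶜ hU.isClosed_compl
    (fun h => h hx)
  refine ⟨fun z => 1 - (g z : ℝ), continuous_const.sub (continuous_subtype_val.comp hg), ?_, ?_, ?_⟩
  · simp [hgx]
  · intro z hz
    have := hgK hz
    simp only [Pi.one_apply] at this
    simp [this]
  · intro z
    have := (g z).2.2
    simp only
    linarith

/-- selection with codes -/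
theorem sel (hX : CpHS X) {ι C J : Type} [Countable C] [Finite J] (c : ι → C) (y : ι → J → X)
    (f : ι → X → ℝ) (hf : ∀ i, Continuous (f i)) :
    ∃ D : Set ι, D.Countable ∧ ∀ i, ∃ d ∈ D, c d = c i ∧ ∀ j, |f d (y i j) - f i (y i j)| < 1 := by
  have h1 : ∀ e : C, ∃ D : Set ι, D.Countable ∧ ∀ i, c i = e → ∃ d ∈ D, c d = e ∧
      ∀ j, |f d (y i j) - f i (y i j)| < 1 := by
    intro e
    obtain ⟨D, hDS, hDc, hD⟩ := hX (f '' {i | c i = e}) (by
      rintro _ ⟨i, -, rfl⟩
      exact hf i)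
    choose g hg using fun φ : D => hDS φ.2
    have : Countable D := hDc.to_subtype
    refine ⟨range g, countable_range g, fun i hi => ?_⟩
    have h2 : f i ∈ closure D := hD ⟨i, hi, rfl⟩
    have h3 : IsOpen {φ : X → ℝ | ∀ j, |φ (y i j) - f i (y i j)| < 1} := by
      have : {φ : X → ℝ | ∀ j, |φ (y i j) - f i (y i j)| < 1} =
          ⋂ j, {φ : X → ℝ | |φ (y i j) - f i (y i j)| < 1} := by
        ext φ; simp
      rw [this]
      exact isOpen_iInter_of_finite fun j =>
        isOpen_lt (((continuous_apply (y i j)).sub continuous_const).abs) continuous_const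
    obtain ⟨φ, hφ, hφD⟩ := mem_closure_iff.1 h2 _ h3 (fun j => by simp)
    refine ⟨g ⟨φ, hφD⟩, mem_range_self _, (hg ⟨φ, hφD⟩).1, fun j => ?_⟩
    rw [(hg ⟨φ, hφD⟩).2]
    exact hφ j
  choose D hDc hD using h1
  refine ⟨⋃ e, D e, countable_iUnion hDc, fun i => ?_⟩
  obtain ⟨d, hd, hcd, hj⟩ := hD (c i) i rfl
  exact ⟨d, mem_iUnion.2 ⟨c i, hd⟩, hcd, hj⟩

/-- points with neighbourhoods -/
theorem sel_pt [CompletelyRegularSpace X] (hX : CpHS X) {ι C : Type} [Countable C] (c : ι → C)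
    (y : ι → X) (U : ι → Set X) (hU : ∀ i, IsOpen (U i)) (hy : ∀ i, y i ∈ U i) :
    ∃ D : Set ι, D.Countable ∧ ∀ i, ∃ d ∈ D, c d = c i ∧ y i ∈ U d := by
  choose f hf hf1 hf0 _ using fun i => exists_bump (hU i) (hy i)
  obtain ⟨D, hDc, hD⟩ := sel hX c (fun i (_ : Unit) => y i) f hf
  refine ⟨D, hDc, fun i => ?_⟩
  obtain ⟨d, hd, hcd, hj⟩ := hD i
  refine ⟨d, hd, hcd, ?_⟩
  by_contra h
  have h1 := hj ()
  simp only [hf0 d _ h, hf1 i, zero_sub, abs_neg, abs_one, lt_irrefl] at h1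

/-- a countable separating family of pairs of disjoint open sets -/
theorem exists_sep [T35Space X] (hX : CpHS X) :
    ∃ (E : Type) (_ : Countable E) (O P : E → Set X), (∀ e, IsOpen (O e)) ∧ (∀ e, IsOpen (P e)) ∧
      (∀ e, Disjoint (O e) (P e)) ∧ ∀ a b : X, a ≠ b → ∃ e, a ∈ O e ∧ b ∈ P e := by
  have h1 : ∀ i : {p : X × X // p.1 ≠ p.2}, ∃ V W : Set X, IsOpen V ∧ IsOpen W ∧ i.1.1 ∈ V ∧
      i.1.2 ∈ W ∧ Disjoint V W := fun i => t2_separation i.2
  choose V W hV hW haV hbW hVW using h1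
  choose φ hφ hφ1 hφ0 hφp using fun i => exists_bump (hV i) (haV i)
  choose ψ hψ hψ1 hψ0 hψp using fun i => exists_bump (hW i) (hbW i)
  obtain ⟨D, hDc, hD⟩ := sel hX (fun _ : {p : X × X // p.1 ≠ p.2} => ())
    (fun i (j : Bool) => if j then i.1.1 else i.1.2) (fun i z => φ i z - ψ i z)
    (fun i => (hφ i).sub (hψ i))
  refine ⟨D, hDc.to_subtype, fun d => V d.1, fun d => W d.1, fun d => hV _, fun d => hW _,
    fun d => hVW _, fun a b hab => ?_⟩
  obtain ⟨d, hd, -, hj⟩ := hD ⟨(a, b), hab⟩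
  refine ⟨⟨d, hd⟩, ?_, ?_⟩
  · have h2 := hj true
    simp only [if_true] at h2
    have h3 : ψ ⟨(a, b), hab⟩ a = 0 := by
      refine hψ0 _ _ fun h => ?_
      exact Set.disjoint_left.1 (hVW ⟨(a, b), hab⟩) (haV ⟨(a, b), hab⟩) h
    have h4 : φ ⟨(a, b), hab⟩ a = 1 := hφ1 ⟨(a, b), hab⟩
    rw [h3, h4] at h2
    by_contra hcon
    have h5 : φ d a = 0 := hφ0 d a hcon
    have h6 := hψp d a
    rw [h5, abs_lt] at h2
    linarith [h2.1]
  · have h2 := hj false
    simp only [Bool.false_eq_true, if_false] at h2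
    have h3 : φ ⟨(a, b), hab⟩ b = 0 := by
      refine hφ0 _ _ fun h => ?_
      exact Set.disjoint_left.1 (hVW ⟨(a, b), hab⟩) h (hbW ⟨(a, b), hab⟩)
    have h4 : ψ ⟨(a, b), hab⟩ b = 1 := hψ1 ⟨(a, b), hab⟩
    rw [h3, h4] at h2
    by_contra hcon
    have h5 : ψ d b = 0 := hψ0 d b hcon
    have h6 := hφp d b
    rw [h5, abs_lt] at h2
    linarith [h2.2]

/-- finite tuples of points with open boxes -/
theorem sel_box [T35Space X] (hX : CpHS X) {ι C J : Type} [Countable C] [Finite J] (c : ι → C)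
    (y : ι → J → X) (U : ι → J → Set X) (hU : ∀ i j, IsOpen (U i j)) (hy : ∀ i j, y i j ∈ U i j) :
    ∃ D : Set ι, D.Countable ∧ ∀ i, ∃ d ∈ D, c d = c i ∧ ∀ j, y i j ∈ U d j := by
  obtain ⟨E, _, O, P, hO, hP, hOP, hsep⟩ := exists_sep hX
  classical
  have _ : Fintype J := Fintype.ofFinite J
  -- the codes
  have hcode : ∀ (i : ι) (j j' : J), ∃ e : Option E, (e = none ↔ y i j = y i j') ∧
      ∀ a, e = some a → y i j ∈ O a ∧ y i j' ∈ P a := by
    intro i j j'
    by_cases h : y i j = y i j'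
    · exact ⟨none, by simp [h], by simp⟩
    · obtain ⟨e, he1, he2⟩ := hsep _ _ h
      refine ⟨some e, by simp [h], fun a ha => ?_⟩
      obtain rfl := Option.some.inj ha
      exact ⟨he1, he2⟩
  choose k hk1 hk2 using hcode
  -- the open sets determined by a code
  set Q : (J → J → Option E) → J → Set X := fun κ j =>
    (⋂ j', {z | ∀ a, κ j j' = some a → z ∈ O a}) ∩ ⋂ j', {z | ∀ a, κ j' j = some a → z ∈ P a}
    with hQ
  have hopt : ∀ (o : Option E) (R : E → Set X), (∀ e, IsOpen (R e)) →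
      IsOpen {z | ∀ a, o = some a → z ∈ R a} := by
    intro o R hR
    cases o with
    | none => simp
    | some e => simpa using hR e
  have hQo : ∀ κ j, IsOpen (Q κ j) := fun κ j =>
    (isOpen_iInter_of_finite fun j' => hopt _ _ hO).inter
      (isOpen_iInter_of_finite fun j' => hopt _ _ hP)
  have hQy : ∀ i j, y i j ∈ Q (k i) j := fun i j =>
    ⟨mem_iInter.2 fun j' a ha => (hk2 i j j' a ha).1,
      mem_iInter.2 fun j' a ha => (hk2 i j' j a ha).2⟩
  have hQd : ∀ κ j j' z, z ∈ Q κ j → z ∈ Q κ j' → κ j j' = none := by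
    intro κ j j' z hz hz'
    by_contra hne
    obtain ⟨a, ha⟩ := Option.ne_none_iff_exists'.1 hne
    exact Set.disjoint_left.1 (hOP a) (mem_iInter.1 hz.1 j' a ha) (mem_iInter.1 hz'.2 j a ha)
  -- the boxes
  set U' : ι → J → Set X := fun i j =>
    Q (k i) j ∩ ⋂ j', {z | k i j j' = none → z ∈ U i j'} with hU'
  have hU'o : ∀ i j, IsOpen (U' i j) := by
    intro i j
    refine (hQo _ _).inter (isOpen_iInter_of_finite fun j' => ?_)
    by_cases h : k i j j' = none
    · simpa [h] using hU i j'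
    · simp [h]
  have hU'y : ∀ i j, y i j ∈ U' i j := by
    intro i j
    refine ⟨hQy i j, mem_iInter.2 fun j' h => ?_⟩
    rw [(hk1 i j j').1 h]
    exact hy i j'
  choose f hf hf1 hf0 hfp using fun i j => exists_bump (hU'o i j) (hU'y i j)
  obtain ⟨D, hDc, hD⟩ := sel hX (fun i => (c i, k i)) y (fun i z => ∑ j, f i j z)
    (fun i => continuous_finset_sum _ fun j _ => hf i j)
  refine ⟨D, hDc, fun i => ?_⟩
  obtain ⟨d, hd, hcd, hj⟩ := hD i
  have hc : c d = c i := (Prod.ext_iff.1 hcd).1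
  have hkk : k d = k i := (Prod.ext_iff.1 hcd).2
  refine ⟨d, hd, hc, fun j => ?_⟩
  have h1 := hj j
  have h2 : 1 ≤ ∑ j', f i j' (y i j) := by
    rw [← hf1 i j]
    exact Finset.single_le_sum (f := fun j' => f i j' (y i j)) (fun j' _ => hfp i j' _)
      (Finset.mem_univ j)
  have h3 : ∑ j', f d j' (y i j) ≠ 0 := by
    intro h0
    rw [h0, abs_lt] at h1
    linarith [h1.1]
  obtain ⟨j', -, hj'⟩ := Finset.exists_ne_zero_of_sum_ne_zero h3
  have h4 : y i j ∈ U' d j' := by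
    by_contra h
    exact hj' (hf0 d j' _ h)
  have h5 : y i j ∈ Q (k d) j := by rw [hkk]; exact hQy i j
  have h6 : k d j' j = none := hQd _ _ _ _ h4.1 h5
  exact mem_iInter.1 h4.2 j h6

end Pool.Agent.H66.CP
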